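import Pool.Agent.N52.ST.Stm
import Pool.Agent.N957.NH.PROJ

/-!
# ST: the projection onto the block algebra maps contractions to contractions
-/

set_option autoImplicit false

namespace Pool.Agent.N52.ST

open Matrix Finset
open scoped ComplexOrder
open Pool.Agent.W661.RC Pool.Agent.W683.RC Pool.Agent.N303.KQ Pool.Agent.N52.NH
open Pool.Agent.N957.NH.PROJ (spec Dk BD_iff Am_one)

noncomputable section

theorem cex : S_CEX := by
  classical
  intro d O x hx
  set y : Mt d := Pool.Agent.N303.KQ.JJ (Jb O) (kp (Jb O) x) with hy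
  set z : Mt d := x - y with hz
  have hkz : kp (Jb O) z = 0 := by
    rw [hz, kp_sub, hy, kp_JJ onf_Jb, sub_self]
  have hort : ∀ a ∈ O.alg, ip a z = 0 := by
    intro a ha
    rw [← JJ_kp_alg ha, Pool.Agent.N303.KQ.JJ, ip_sum_left]
    refine sum_eq_zero fun w _ => ?_
    rw [ip_smul_left]
    have h1 : ip (Jb O w) z = 0 := congrFun hkz w
    rw [h1, mul_zero]
  have hym : y ∈ O.alg := JJ_mem _
  have hcon : ∀ c ∈ O.alg, hs (y * c) ≤ hs c := by
    intro c hc
    have h1 : x * c = y * c + z * c := by rw [← Matrix.add_mul, hz]; congr 1; abel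
    have h2 : ip (y * c) (z * c) = 0 := by
      have h3 := hort (y * c * cᴴ) (alg_mul (alg_mul hym hc) (alg_conjTranspose hc))
      rw [← h3, ip, ip, Matrix.conjTranspose_mul (y * c) cᴴ, Matrix.conjTranspose_conjTranspose,
        ← Matrix.mul_assoc, Matrix.trace_mul_comm ((y * c)ᴴ * z) c, Matrix.mul_assoc c]
    have h3 : hs (x * c) = hs (y * c) + hs (z * c) := by
      rw [h1, hs_add_ip, h2]; simp
    have h4 := Pool.Agent.W683.RC.hs_mul_le hx c
    have h5 := Pool.Agent.W683.RC.hs_nonneg (z * c)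
    linarith
  obtain ⟨α, hα, hyα⟩ := mem_alg.1 hym
  set B : Matrix O.I O.I ℂ := 1 - αᴴ * α with hB
  have hBh : Bᴴ = B := by
    rw [hB, conjTranspose_sub, conjTranspose_one, conjTranspose_mul, conjTranspose_conjTranspose]
  obtain ⟨χ, g, h, hχ, hg, hh, hχχ, hχg, hχh, hgh, hcom⟩ := spec B hBh
  have hBc : ∀ κ, Commute B (Dk O κ) := fun κ => by
    rw [hB]
    exact (Commute.one_left _).sub_left (BD_iff.1 (hα.conjTranspose.mul hα) κ)
  have hgb : BD O g := BD_iff.2 fun κ => (hcom _ (hBc κ)).2.1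
  have hhb : BD O h := BD_iff.2 fun κ => (hcom _ (hBc κ)).2.2
  set G := Am O g with hGd
  set H := Am O h with hHd
  have hGG : Gᴴ = G := by rw [hGd, Am_conjTranspose, hg]
  have hHH : Hᴴ = H := by rw [hHd, Am_conjTranspose, hh]
  have hgχ : g * χ = g := by
    have h1 := congrArg conjTranspose hχg
    rw [conjTranspose_mul, hg, hχ] at h1
    exact h1
  have hGH : G * H = 0 := by
    rw [hGd, hHd, Am_mul hgb]
    have h1 : g * h = 0 := by rw [← hgχ, Matrix.mul_assoc, hχh, Matrix.mul_zero]
    rw [h1, Am, Bm_zero, Matrix.mul_zero, Matrix.zero_mul]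
  have hyy : yᴴ * y = pO O - G * G + H * H := by
    have h1 : yᴴ * y = Am O (αᴴ * α) := by
      rw [hyα, Am_conjTranspose, Am_mul hα.conjTranspose]
    have h2 : αᴴ * α = 1 + ((-1 : ℂ) • (g * g) + h * h) := by
      have h3 : αᴴ * α = 1 - B := by rw [hB]; abel
      rw [h3, ← hgh, neg_one_smul]; abel
    rw [h1, h2, Am_add, Am_add, Am_smul, Am_one, hGd, hHd, Am_mul hgb, Am_mul hhb, neg_one_smul]
    abel
  have hHm : H ∈ O.alg := Am_mem hhb
  have hpH : pO O * H = H := pO_mul_alg hHm
  -- the negative part vanishes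
  have h1 : hs (y * H) = hs H + hs (H * H) := by
    have e1 : (y * H)ᴴ * (y * H) = Hᴴ * H + (H * H)ᴴ * (H * H) := by
      calc (y * H)ᴴ * (y * H) = Hᴴ * (yᴴ * y) * H := by
            rw [Matrix.conjTranspose_mul]; simp only [Matrix.mul_assoc]
        _ = H * (pO O * H) - H * (G * (G * H)) + H * H * (H * H) := by
            rw [hyy, hHH]
            simp only [Matrix.mul_add, Matrix.mul_sub, Matrix.add_mul, Matrix.sub_mul,
              Matrix.mul_assoc]
        _ = _ := by
            rw [hpH, hGH, Matrix.mul_zero, Matrix.mul_zero, sub_zero, Matrix.conjTranspose_mul,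
              hHH]
    rw [hs_eq_tr (y * H), e1, tr_add, ← hs_eq_tr, ← hs_eq_tr]
  have h2 := hcon H hHm
  have h3 : hs (H * H) = 0 := le_antisymm (by linarith) (Pool.Agent.W683.RC.hs_nonneg _)
  have h4 : hs H = 0 → H = 0 := by
    intro h0
    have := ip_self H
    rw [h0] at this
    have h5 : Matrix.trace (Hᴴ * H) = 0 := by simpa [ip] using this
    exact Matrix.trace_conjTranspose_mul_self_eq_zero_iff.1 h5
  have h5 : H * H = 0 := by
    have := ip_self (H * H)
    rw [h3] at this
    have h6 : Matrix.trace ((H * H)ᴴ * (H * H)) = 0 := by simpa [ip] using this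
    exact Matrix.trace_conjTranspose_mul_self_eq_zero_iff.1 h6
  rw [Le]
  rw [hyy, h5, add_zero]
  have e2 : (1 : Mt d) - (pO O - G * G) = (1 - pO O) + Gᴴ * G := by rw [hGG]; abel
  rw [e2]
  exact (pr_psd (pr_compl pO_pr)).add (posSemidef_conjTranspose_mul_self G)

end

end Pool.Agent.N52.ST
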