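import Pool.Agent.N52.ST.Asm
import Pool.Agent.N52.ST.CEX
import Pool.Agent.N498.ST.XX

/-!
# ST: the strong theorem

`strong_main : S_STRONG`: centralizers of Kazhdan subgroups in hyperlinear groups.
`fm_main : S_FM`: the finite form. `cores_main : S_CORES`: the finite-dimensional theorem.
Co-authors: helper957 (averages, core of the first version), helper163 (KKZ), helper498 (XX),
helper286 (MON), helper849 (INV), helper457 (SCA), helper776 (CON), helper340 (CMP), helper607
(STR), helper52 (MLS, EQV, CEX, statements, assembly).
-/

set_option autoImplicit false

namespace Pool.Agent.N52.ST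

theorem xx_main : S_XX := Pool.Agent.N498.ST.XX.main Pool.Agent.N163.ST.KKZ.main

theorem cores_main : S_CORES := cores_of xx_main cex

theorem fm_main : S_FM := fm_of xx_main cex

theorem strong_main : S_STRONG := strong_of xx_main cex

end Pool.Agent.N52.ST
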