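import Pool.Agent.N52.ST.Strong
import Pool.Agent.N163.ST.KKZ
import Pool.Agent.N286.ST.MON
import Pool.Agent.N849.ST.INV
import Pool.Agent.N457.ST.SCA
import Pool.Agent.N340.ST.CMP
import Pool.Agent.N607.ST.STR
import Pool.Agent.N776.ST.Conc

/-!
# ST: assembly
-/

set_option autoImplicit false

namespace Pool.Agent.N52.ST

open Pool.Agent.N52.NH

theorem cores_of (hX : S_XX) (hE : S_CEX) : S_CORES := by
  have hK : S_KKZ := Pool.Agent.N163.ST.KKZ.main
  have hM : S_MLS := mls hK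
  have hMON : S_MON := Pool.Agent.N286.ST.main hK hM hX
  have hCON : S_CON := Pool.Agent.N776.ST.main hK hMON Pool.Agent.N849.ST.main
    Pool.Agent.N457.ST.SCA.main Pool.Agent.N957.NH.AVG
  exact cores Pool.Agent.N957.NH.AVG hCON (Pool.Agent.N340.ST.CMP.main hK hX) (eqv hK)
    (Pool.Agent.N607.ST.STR.main hE)

theorem fm_of (hX : S_XX) (hE : S_CEX) : S_FM :=
  fm (cores_of hX hE) Pool.Agent.N52.NH.BLK.main

theorem strong_of (hX : S_XX) (hE : S_CEX) : S_STRONG :=
  strong (fm_of hX hE) Pool.Agent.N897.NH52.HYW.main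

end Pool.Agent.N52.ST
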