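import Pool.Agent.N52.ST.MLS
import Pool.Agent.N957.NH.Core

/-!
# ST: the finite-dimensional theorem from its parts
-/

set_option autoImplicit false

namespace Pool.Agent.N52.ST

open Matrix Finset
open scoped ComplexOrder
open Pool.Agent.W661.RC Pool.Agent.W683.RC Pool.Agent.N303.KQ Pool.Agent.N52.NH

noncomputable section

theorem cores (hAVG : Pool.Agent.N957.NH.S_AVG) (hCON : S_CON) (hCMP : S_CMP) (hEQV : S_EQV)
    (hSTR : S_STR) : S_CORES := by
  intro k K1 ε0 hK1 hε0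
  set η : ℝ := ε0 / 16 with hη
  have hη0 : 0 < η := by positivity
  set c : ℝ := min 1 (η / 6) with hc
  have hc0 : 0 < c := lt_min one_pos (by positivity)
  have hc1 : c ≤ 1 := min_le_left _ _
  have hc2 : c ≤ η / 6 := min_le_right _ _
  have hγ : 1 < 1 + c := by linarith
  obtain ⟨ε1, hε1, hcon⟩ := hCON k K1 (η / 1000) (1 + c) hK1 (by positivity) hγ
  set ε : ℝ := min ε1 (η / 1000) with hε
  have hε0' : 0 < ε := lt_min hε1 (by positivity)
  have hεa : ε ≤ ε1 := min_le_left _ _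
  have hεb : ε ≤ η / 1000 := min_le_right _ _
  refine ⟨ε, hε0', ?_⟩
  intro d O Q u hd hP s
  have hd0 : (0 : ℝ) < d := by exact_mod_cast hd
  have hP1 : Pair u O Q K1 ε1 := by
    refine ⟨hP.un, fun s a ha ha1 => ?_, hP.blk.mono hεa, fun x hx hx1 => ?_, ?_⟩
    · obtain ⟨b, hb, hb2⟩ := hP.near s a ha ha1
      exact ⟨b, hb, hb2.trans (mul_le_mul_of_nonneg_right hεa hd0.le)⟩
    · obtain ⟨b, hb, hb2⟩ := hP.sub x hx hx1
      exact ⟨b, hb, hb2.trans (mul_le_mul_of_nonneg_right hεa hd0.le)⟩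
    · exact hP.size.trans (mul_le_mul_of_nonneg_right hεa hd0.le)
  obtain ⟨m, hm0, hm⟩ := hcon d O Q u hd hP1
  set a : Q.I → Mt d := fun j => JJ (Jb O) (kp (Jb O) (pr Q j)) with ha
  have haO : ∀ j, a j ∈ O.alg := fun j => JJ_mem _
  have e1 : ∑ j, hs (pr Q j - a j) ≤ ε * d := by
    have h1 := hAVG d Q (LinearMap.id - Pool.Agent.N957.NH.prL O) (ε * d) (by
      intro x hx hx1
      obtain ⟨b, hb, hb2⟩ := hP.sub x hx hx1
      exact (hs_sub_kp_le (x := x) hb).trans hb2)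
    exact h1
  have e2 : ∑ j, hs (u s * pr Q j - pr Q j * u s) ≤ ε * d := by
    have h1 := hAVG d Q (LinearMap.mulLeft ℂ (u s) - LinearMap.mulRight ℂ (u s)) (ε * d) (by
      intro x hx hx1
      show hs (u s * x - x * u s) ≤ ε * d
      have h2 := hP.blk.en x hx hx1
      refine le_trans ?_ h2
      rw [Pool.Agent.W661.RC.en]
      exact single_le_sum (f := fun s => hs (u s * x - x * u s))
        (fun i _ => Pool.Agent.W683.RC.hs_nonneg _) (mem_univ s))
    exact h1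
  have h3 := hCMP d O Q (u s) a (η / 1000) ε (ε * d) (1 + c) m (hP.un s) hγ hm0 hP.blk.size hm haO
    e1 e2
  have hΓ : 1 < (1 + c) ^ 2 := by nlinarith
  have h4 := hEQV d O (u s) ε (η / 10 + 101 * ε) ((1 + c) ^ 2) (hP.un s) hΓ (hP.near s)
    (h3.trans (by nlinarith))
  have hD : D0 O ≤ d := D0_le
  have h5 : D0 O - η * d ≤ W2 O (TT O (u s)ᴴ) := by
    refine le_trans ?_ h4
    have hΓ0 : (0 : ℝ) < (1 + c) ^ 2 := by positivity
    have hi : 1 - 3 * c ≤ 1 / (1 + c) ^ 2 := by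
      rw [le_div_iff₀ hΓ0]
      nlinarith [mul_pos hc0 hc0, mul_pos (mul_pos hc0 hc0) hc0]
    have hi1 : 1 / (1 + c) ^ 2 ≤ 1 := by
      rw [div_le_one hΓ0]; exact hΓ.le
    have hi0 : 0 < 1 / (1 + c) ^ 2 := by positivity
    have hD0 : 0 ≤ D0 O := by rw [D0]; positivity
    have h6 : D0 O - 3 * c * d ≤ 1 / (1 + c) ^ 2 * D0 O := by
      have h7 : (1 - 3 * c) * D0 O ≤ 1 / (1 + c) ^ 2 * D0 O := mul_le_mul_of_nonneg_right hi hD0
      have h8 : 3 * c * D0 O ≤ 3 * c * d := mul_le_mul_of_nonneg_left hD (by positivity)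
      linarith
    have h9 : 1 / (1 + c) ^ 2 * ((ε + (η / 10 + 101 * ε)) * d) ≤ (η / 2) * d := by
      have h10 : (ε + (η / 10 + 101 * ε)) * d ≤ η / 2 * d :=
        mul_le_mul_of_nonneg_right (by linarith) hd0.le
      have h11 : 0 ≤ (ε + (η / 10 + 101 * ε)) * d := by positivity
      calc 1 / (1 + c) ^ 2 * ((ε + (η / 10 + 101 * ε)) * d) ≤
          1 * ((ε + (η / 10 + 101 * ε)) * d) := mul_le_mul_of_nonneg_right hi1 h11
        _ ≤ _ := by rw [one_mul]; exact h10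
    have h12 : 3 * c * d ≤ η / 2 * d := mul_le_mul_of_nonneg_right (by linarith) hd0.le
    rw [mul_sub]
    linarith
  have h6 := hSTR d O (u s)ᴴ η (unit_conj (hP.un s)) h5
  have e3 : 16 * η = ε0 := by rw [hη]; ring
  rw [e3] at h6
  exact h6

end

end Pool.Agent.N52.ST
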