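import Pool.Agent.N52.ST.Cores
import Pool.Agent.N52.NH.MAINH
import Pool.Agent.N52.NH.BLK
import Pool.Agent.N169.NH52.GEN
import Pool.Agent.N303.KQ.FG

/-!
# ST: the finite form for groups
-/

set_option autoImplicit false

namespace Pool.Agent.N52.ST

open Matrix Finset
open scoped ComplexOrder
open Pool.Agent.W661.RC Pool.Agent.W683.RC Pool.Agent.N303.KQ Pool.Agent.N52.NH
open Pool.Agent.N52.NH.MAINH (hs_word)

noncomputable section

theorem lift_lift' {k n : ℕ} {G : Type} [Group G] (U : Fin n → G) (w : Fin k → FreeGroup (Fin n))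
    (b : FreeGroup (Fin k)) :
    FreeGroup.lift (fun j => FreeGroup.lift U (w j)) b = FreeGroup.lift U (FreeGroup.lift w b) := by
  have h : FreeGroup.lift (fun j => FreeGroup.lift U (w j)) =
      (FreeGroup.lift U).comp (FreeGroup.lift w) := by
    apply FreeGroup.ext_hom
    intro j
    simp
  rw [h]; rfl

/-- the monoid generates: a finite generating tuple containing `g` -/
theorem gens {G : Type} [Group G] {n : ℕ} (γ : FreeGroup (Fin n) →* G)
    (hγ : Function.Surjective γ) (M : Set G) (hM : Subgroup.closure M = ⊤) (g : G) (hg : g ∈ M) :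
    ∃ (m : ℕ) (v : Fin m → G) (s0 : Fin m), v s0 = g ∧ (∀ s, v s ∈ M) ∧
      Function.Surjective (FreeGroup.lift v) := by
  classical
  have hex : ∀ s : Fin n, ∃ F : Finset G, (F : Set G) ⊆ M ∧
      γ (FreeGroup.of s) ∈ Subgroup.closure (F : Set G) :=
    fun s => Pool.Agent.N169.NH52.fin_sub _ _ (by rw [hM]; exact Subgroup.mem_top _)
  choose Fs hFs hγs using hex
  obtain ⟨F, hF⟩ : ∃ F : Finset G, F = insert g (Finset.univ.biUnion Fs) := ⟨_, rfl⟩
  have hhF : g ∈ F := by
    rw [hF]
    exact Finset.mem_insert_self _ _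
  have hFM : ∀ x ∈ F, x ∈ M := by
    intro x hx
    rw [hF, Finset.mem_insert, Finset.mem_biUnion] at hx
    rcases hx with rfl | ⟨s, _, hs⟩
    · exact hg
    · exact hFs s (Finset.mem_coe.2 hs)
  have hle : ∀ s, γ (FreeGroup.of s) ∈ Subgroup.closure (F : Set G) := by
    intro s
    refine Subgroup.closure_mono ?_ (hγs s)
    intro x hx
    rw [hF]
    exact Finset.mem_coe.2 (Finset.mem_insert_of_mem (Finset.mem_biUnion.2
      ⟨s, Finset.mem_univ s, Finset.mem_coe.1 hx⟩))
  have htop : ∀ x : G, x ∈ Subgroup.closure (F : Set G) := by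
    intro x
    obtain ⟨w, rfl⟩ := hγ x
    induction w using FreeGroup.induction_on with
    | C1 => rw [map_one]; exact one_mem _
    | of s => exact hle s
    | inv_of s hs => rw [map_inv]; exact inv_mem hs
    | mul a b ha hb => rw [map_mul]; exact mul_mem ha hb
  refine ⟨F.card, fun t => ((F.equivFin.symm t : F) : G), F.equivFin ⟨g, hhF⟩, ?_, ?_, ?_⟩
  · simp only [Equiv.symm_apply_apply]
  · intro s
    exact hFM _ (F.equivFin.symm s).2
  · rw [← MonoidHom.range_eq_top, eq_top_iff]
    intro x _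
    refine (Subgroup.closure_le _).2 ?_ (htop x)
    intro y hy
    refine ⟨FreeGroup.of (F.equivFin ⟨y, Finset.mem_coe.1 hy⟩), ?_⟩
    rw [FreeGroup.lift_apply_of, Equiv.symm_apply_apply]

/-- a relation `p q = r s` of words gives an approximate identity of matrices -/
theorem rel_le {n d : ℕ} (U : Fin n → unitaryGroup (Fin d) ℂ) {e : ℝ} (p q : FreeGroup (Fin n))
    (h : hs ((FreeGroup.lift U (p * q⁻¹) : Mt d) - 1) ≤ e) :
    hs ((FreeGroup.lift U p : Mt d) - (FreeGroup.lift U q : Mt d)) ≤ e := by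
  rw [← hs_word]; exact h

theorem fm (hC : S_CORES) (hB : S_BLK) : S_FM := by
  classical
  intro G _ K hTG hTK hcl n γ hγ g hg x hx ε hε
  -- generators
  obtain ⟨m, v, s0, hv0, hvM, hvs⟩ := gens γ hγ _ hcl g hg
  obtain ⟨l, γK, hγK⟩ := exists_free hTK
  choose a ha using fun s : Fin m => hγ (v s)
  choose b hb using fun t : Fin l => hγ ((γK (FreeGroup.of t) : K) : G)
  have hla : ∀ w : FreeGroup (Fin m), γ (FreeGroup.lift a w) = FreeGroup.lift v w := by
    intro w
    have h1 : γ.comp (FreeGroup.lift a) = FreeGroup.lift v := by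
      apply FreeGroup.ext_hom
      intro j
      simp [ha]
    exact congrFun (congrArg DFunLike.coe h1) w
  have hlb : ∀ w : FreeGroup (Fin l), γ (FreeGroup.lift b w) = ((γK w : K) : G) := by
    intro w
    have h1 : γ.comp (FreeGroup.lift b) = K.subtype.comp γK := by
      apply FreeGroup.ext_hom
      intro j
      simp [hb]
    exact congrFun (congrArg DFunLike.coe h1) w
  -- words
  have hw : ∀ (s : Fin m) (t : Fin l), ∃ w : FreeGroup (Fin l),
      ((γK (FreeGroup.of t) : K) : G) * v s = v s * ((γK w : K) : G) := by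
    intro s t
    obtain ⟨w, hw⟩ := hγK ⟨_, hvM s _ (γK (FreeGroup.of t)).2⟩
    refine ⟨w, ?_⟩
    rw [hw]
    group
  choose w hw using hw
  choose y hy using fun t : Fin l => hvs ((γK (FreeGroup.of t) : K) : G)
  obtain ⟨z, hz⟩ := hγK ⟨_, hx⟩
  have hz' : γ x * g = g * ((γK z : K) : G) := by rw [hz]; group
  choose L hL0 hL using fun s t => comm_word (w s t)
  choose L' hL0' hL' using fun t => comm_word (y t)
  obtain ⟨Lz, hLz0, hLz⟩ := comm_word z
  -- constants
  obtain ⟨Kg, hKg, hBg⟩ := hB G m (FreeGroup.lift v) hTG hvs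
  obtain ⟨Kk, hKk, hBk⟩ := hB K l γK hTK hγK
  obtain ⟨εc, hεc, hcore⟩ := hC m Kg (ε / 1000) hKg.le (by positivity)
  set M : ℝ := Kk * (∑ s, ∑ t, (2 * L s t + 8)) + Kk * (∑ t, (2 * L' t + 8)) + Kk * l + Lz + 1
    with hM
  have hM1 : 0 ≤ Kk * (∑ s, ∑ t, (2 * L s t + 8)) :=
    mul_nonneg hKk.le (sum_nonneg fun s _ => sum_nonneg fun t _ => by linarith [hL0 s t])
  have hM2 : 0 ≤ Kk * (∑ t, (2 * L' t + 8)) :=
    mul_nonneg hKk.le (sum_nonneg fun t _ => by linarith [hL0' t])
  have hM3 : 0 ≤ Kk * l := by positivity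
  have hMp : 1 ≤ M := by rw [hM]; linarith
  set e : ℝ := min εc ε / (1000 * M) with he
  have hmin : 0 < min εc ε := lt_min hεc hε
  have hep : 0 < e := by rw [he]; positivity
  have hMe : 1000 * (M * e) = min εc ε := by rw [he]; field_simp
  have hMe1 : M * e ≤ εc := by
    have := min_le_left εc ε
    have h2 : 0 ≤ M * e := by positivity
    linarith
  have hMe2 : M * e ≤ ε / 1000 := by
    have := min_le_right εc ε
    linarith
  have heM : e ≤ M * e := by nlinarith
  obtain ⟨Rg, δg, hRg, hδg, hBg⟩ := hBg e hep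
  obtain ⟨Rk, δk, hRk, hδk, hBk⟩ := hBk e hep
  set δ : ℝ := min e (min δg δk) with hδ
  have hδp : 0 < δ := lt_min hep (lt_min hδg hδk)
  have hδe : δ ≤ e := min_le_left _ _
  have hδg' : δ ≤ δg := (min_le_right _ _).trans (min_le_left _ _)
  have hδk' : δ ≤ δk := (min_le_right _ _).trans (min_le_right _ _)
  -- the words
  set R1 : Finset (FreeGroup (Fin n)) := Rg.image (FreeGroup.lift a) with hR1
  set R2 : Finset (FreeGroup (Fin n)) := Rk.image (FreeGroup.lift b) with hR2
  set R3 : Finset (FreeGroup (Fin n)) := univ.image (fun q : Fin m × Fin l =>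
    b q.2 * a q.1 * (a q.1 * FreeGroup.lift b (w q.1 q.2))⁻¹) with hR3
  set R4 : Finset (FreeGroup (Fin n)) := univ.image (fun t : Fin l =>
    b t * (FreeGroup.lift a (y t))⁻¹) with hR4
  set R5 : Finset (FreeGroup (Fin n)) := {x * a s0 * (a s0 * FreeGroup.lift b z)⁻¹} with hR5
  refine ⟨δ, R1 ∪ R2 ∪ R3 ∪ R4 ∪ R5, univ.image b, hδp, ?_, ?_, ?_⟩
  · intro r hr
    simp only [mem_union] at hr
    rcases hr with (((hr | hr) | hr) | hr) | hr
    · obtain ⟨w1, hw1, rfl⟩ := mem_image.1 hr
      rw [hla]; exact hRg w1 hw1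
    · obtain ⟨w1, hw1, rfl⟩ := mem_image.1 hr
      rw [hlb, hRk w1 hw1]; rfl
    · obtain ⟨⟨s, t⟩, _, rfl⟩ := mem_image.1 hr
      simp only [map_mul, map_inv, hlb, ha, hb]
      rw [hw s t]
      group
    · obtain ⟨t, _, rfl⟩ := mem_image.1 hr
      simp only [map_mul, map_inv, hla, hb, hy]
      group
    · rw [hR5, mem_singleton] at hr
      subst hr
      simp only [map_mul, map_inv, hlb, ha, hv0]
      rw [hz']
      group
  · intro r hr
    obtain ⟨t, _, rfl⟩ := mem_image.1 hr
    rw [hb]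
    exact (γK (FreeGroup.of t)).2
  · intro d U V hd hR hV hS
    have hd0 : (0 : ℝ) < d := by exact_mod_cast hd
    set U2 : Fin m → unitaryGroup (Fin d) ℂ := fun s => FreeGroup.lift U (a s) with hU2
    set UK : Fin l → unitaryGroup (Fin d) ℂ := fun t => FreeGroup.lift U (b t) with hUK
    have hU2l : ∀ w1, FreeGroup.lift U2 w1 = FreeGroup.lift U (FreeGroup.lift a w1) :=
      fun w1 => lift_lift' U a w1
    have hUKl : ∀ w1, FreeGroup.lift UK w1 = FreeGroup.lift U (FreeGroup.lift b w1) :=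
      fun w1 => lift_lift' U b w1
    have hun : ∀ u : unitaryGroup (Fin d) ℂ, (u.1)ᴴ * u.1 = 1 := un_conj
    obtain ⟨Q, hQ⟩ := hBg d U2 hd (by
      intro w1 hw1
      rw [hU2l]
      refine (hR _ ?_).trans (mul_le_mul_of_nonneg_right hδg' hd0.le)
      simp only [mem_union]
      exact Or.inl (Or.inl (Or.inl (Or.inl (mem_image_of_mem _ hw1)))))
    obtain ⟨O, hO⟩ := hBk d UK hd (by
      intro w1 hw1
      rw [hUKl]
      refine (hR _ ?_).trans (mul_le_mul_of_nonneg_right hδk' hd0.le)
      simp only [mem_union]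
      exact Or.inl (Or.inl (Or.inl (Or.inr (mem_image_of_mem _ hw1)))))
    have hrel3 : ∀ s t, hs ((UK t).1 * (U2 s).1 - (U2 s).1 * (FreeGroup.lift UK (w s t)).1) ≤
        e * d := by
      intro s t
      have h1 := hR (b t * a s * (a s * FreeGroup.lift b (w s t))⁻¹) (by
        simp only [mem_union]
        exact Or.inl (Or.inl (Or.inr (mem_image.2 ⟨(s, t), mem_univ _, rfl⟩))))
      have h2 := rel_le U _ _ (h1.trans (mul_le_mul_of_nonneg_right hδe hd0.le))
      rw [map_mul, map_mul, ← hUKl] at h2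
      exact h2
    have hrel4 : ∀ t, hs ((UK t).1 - (FreeGroup.lift U2 (y t)).1) ≤ e * d := by
      intro t
      have h1 := hR (b t * (FreeGroup.lift a (y t))⁻¹) (by
        simp only [mem_union]
        exact Or.inl (Or.inr (mem_image.2 ⟨t, mem_univ _, rfl⟩)))
      have h2 := rel_le U _ _ (h1.trans (mul_le_mul_of_nonneg_right hδe hd0.le))
      rw [← hU2l] at h2
      exact h2
    have hrel5 : hs ((FreeGroup.lift U x).1 * (U2 s0).1 -
        (U2 s0).1 * (FreeGroup.lift UK z).1) ≤ e * d := by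
      have h1 := hR (x * a s0 * (a s0 * FreeGroup.lift b z)⁻¹) (by
        simp only [mem_union]
        exact Or.inr (mem_singleton_self _))
      have h2 := rel_le U _ _ (h1.trans (mul_le_mul_of_nonneg_right hδe hd0.le))
      rw [map_mul, map_mul, ← hUKl] at h2
      exact h2
    -- the pair
    have hP : Pair (fun s => (U2 s).1) O Q Kg εc := by
      refine ⟨fun s => hun _, fun s => ?_, hQ.mono (heM.trans hMe1), fun c hc hc1 => ?_, ?_⟩
      · have h1 := nearInv_of (U := UK) hKk.le hO (hun (U2 s)) (w s) (L s) (hL0 s)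
          (fun t x => hL s t d UK x) (η := e) (fun t => hrel3 s t)
        have h2 : Kk * ∑ t, (2 * L s t * e + 8 * e) + e ≤ εc := by
          have e1 : ∑ t, (2 * L s t * e + 8 * e) = (∑ t, (2 * L s t + 8)) * e := by
            rw [sum_mul]; exact sum_congr rfl fun t _ => by ring
          rw [e1]
          have h3 : ∑ t, (2 * L s t + 8) ≤ ∑ s, ∑ t, (2 * L s t + 8) :=
            single_le_sum (f := fun s => ∑ t, (2 * L s t + 8))
              (fun s _ => sum_nonneg fun t _ => by linarith [hL0 s t]) (mem_univ s)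
          have h4 := mul_le_mul_of_nonneg_left h3 hKk.le
          have h5 : (Kk * (∑ t, (2 * L s t + 8)) + 1) * e ≤ M * e :=
            mul_le_mul_of_nonneg_right (by rw [hM]; linarith) hep.le
          linarith
        intro c hc hc1
        obtain ⟨b', hb', hb2⟩ := h1 c hc hc1
        exact ⟨b', hb', hb2.trans (mul_le_mul_of_nonneg_right h2 hd0.le)⟩
      · obtain ⟨c', hc', _, hc2⟩ := hO.near c hc1
        refine ⟨c', hc', hc2.trans ?_⟩
        have h1 : Pool.Agent.W661.RC.en (fun t => (UK t : Mt d)) c ≤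
            (∑ t, (2 * L' t + 8)) * e * d := by
          rw [Pool.Agent.W661.RC.en, sum_mul, sum_mul]
          refine sum_le_sum fun t _ => ?_
          set Y : Mt d := (FreeGroup.lift U2 (y t)).1 with hY
          have h2 := hL' t d U2 c
          have h3 := hQ.en c hc hc1
          have h4 := mul_le_mul_of_nonneg_left h3 (hL0' t)
          have h5 := Pool.Agent.N957.NH.hs_comm_le (y := (UK t).1 - Y) hc1
          have e5 : (UK t).1 * c - c * (UK t).1 = (Y * c - c * Y) +
              (((UK t).1 - Y) * c - c * ((UK t).1 - Y)) := by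
            simp only [Matrix.mul_sub, Matrix.sub_mul]; abel
          have h6 := Pool.Agent.W683.RC.hs_add_le (Y * c - c * Y)
            (((UK t).1 - Y) * c - c * ((UK t).1 - Y))
          rw [← e5] at h6
          have h7 := hrel4 t
          show hs ((UK t).1 * c - c * (UK t).1) ≤ _
          nlinarith
        have h2 := mul_le_mul_of_nonneg_left h1 hKk.le
        have h3 : (Kk * (∑ t, (2 * L' t + 8)) + 1) * e ≤ M * e :=
          mul_le_mul_of_nonneg_right (by rw [hM]; linarith) hep.le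
        have h4 : (Kk * (∑ t, (2 * L' t + 8)) + 1) * e * d ≤ εc * d :=
          mul_le_mul_of_nonneg_right (h3.trans hMe1) hd0.le
        nlinarith
      · exact hO.size.trans (mul_le_mul_of_nonneg_right (heM.trans hMe1) hd0.le)
    have hN := hcore d O Q (fun s => (U2 s).1) hd hP s0
    -- the element `V`
    obtain ⟨c, hc, hc1, hc2⟩ := hO.near V hV
    have hc3 : hs (V - c) ≤ ε / 1000 * d := by
      refine hc2.trans ?_
      have h1 : Pool.Agent.W661.RC.en (fun t => (UK t : Mt d)) V ≤ l * (e * d) := by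
        rw [Pool.Agent.W661.RC.en]
        refine (sum_le_sum (g := fun _ => e * d) fun t _ => ?_).trans (by
          rw [sum_const, card_univ, Fintype.card_fin, nsmul_eq_mul])
        exact (hS (b t) (mem_image_of_mem _ (mem_univ t))).trans
          (mul_le_mul_of_nonneg_right hδe hd0.le)
      have h2 := mul_le_mul_of_nonneg_left h1 hKk.le
      have h3 : (Kk * l + 1) * e ≤ M * e :=
        mul_le_mul_of_nonneg_right (by rw [hM]; linarith) hep.le
      have h4 : (Kk * l + 1) * e * d ≤ ε / 1000 * d :=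
        mul_le_mul_of_nonneg_right (h3.trans hMe2) hd0.le
      nlinarith
    obtain ⟨c', hc', hc1', hc2'⟩ := hN c hc hc1
    set W : Mt d := (U2 s0).1 with hW
    have hWW : Wᴴ * W = 1 := hun _
    have hWW' : W * Wᴴ = 1 := unit_symm hWW
    set Z : Mt d := (FreeGroup.lift UK z).1 with hZ
    have hZZ : Zᴴ * Z = 1 := hun _
    set X : Mt d := (FreeGroup.lift U x).1 with hX
    have h1 : hs (Z * c' - c' * Z) ≤ ε / 1000 * d := by
      have h2 := hLz d UK c'
      have h3 := hO.en c' hc' hc1'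
      have h4 := mul_le_mul_of_nonneg_left h3 hLz0
      have h5 : Lz * e ≤ M * e := mul_le_mul_of_nonneg_right (by rw [hM]; linarith) hep.le
      have h6 : Lz * e * d ≤ ε / 1000 * d :=
        mul_le_mul_of_nonneg_right (h5.trans hMe2) hd0.le
      nlinarith
    have h2 : hs (X - W * Z * Wᴴ) ≤ ε / 1000 * d := by
      have h3 : X - W * Z * Wᴴ = (X * W - W * Z) * Wᴴ := by
        rw [Matrix.sub_mul, Matrix.mul_assoc X W, hWW', Matrix.mul_one]
      rw [h3, hs_mul_unit (unit_conj hWW)]
      exact hrel5.trans (mul_le_mul_of_nonneg_right (heM.trans hMe2) hd0.le)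
    have h3 : hs (c - W * c' * Wᴴ) ≤ ε / 1000 * d := by
      have h4 : c - W * c' * Wᴴ = W * (Wᴴ * c * (Wᴴ)ᴴ - c') * Wᴴ := by
        rw [Matrix.conjTranspose_conjTranspose, Matrix.mul_sub, Matrix.sub_mul]
        congr 1
        calc c = (W * Wᴴ) * c * (W * Wᴴ) := by rw [hWW', Matrix.one_mul, Matrix.mul_one]
          _ = _ := by simp only [Matrix.mul_assoc]
      rw [h4, hs_mul_unit (unit_conj hWW), hs_unit_mul hWW]
      exact hc2'
    have h4 : hs (V - W * c' * Wᴴ) ≤ 4 * (ε / 1000) * d := by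
      have h5 : V - W * c' * Wᴴ = (V - c) + (c - W * c' * Wᴴ) := by abel
      have h6 := Pool.Agent.W683.RC.hs_add_le (V - c) (c - W * c' * Wᴴ)
      rw [← h5] at h6
      linarith
    have hT : (W * Z * Wᴴ)ᴴ * (W * Z * Wᴴ) = 1 := by
      rw [Matrix.conjTranspose_mul, Matrix.conjTranspose_mul, Matrix.conjTranspose_conjTranspose]
      calc W * (Zᴴ * Wᴴ) * (W * Z * Wᴴ) = W * (Zᴴ * (Wᴴ * W) * Z) * Wᴴ := by
            simp only [Matrix.mul_assoc]
        _ = 1 := by rw [hWW, Matrix.mul_one, hZZ, Matrix.mul_one, hWW']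
    have h5 : X * V - V * X = ((X - W * Z * Wᴴ) * V - V * (X - W * Z * Wᴴ)) +
        (W * Z * Wᴴ * (V - W * c' * Wᴴ) - (V - W * c' * Wᴴ) * (W * Z * Wᴴ)) +
        W * (Z * c' - c' * Z) * Wᴴ := by
      have e6 : W * (Z * c' - c' * Z) * Wᴴ =
          W * Z * Wᴴ * (W * c' * Wᴴ) - W * c' * Wᴴ * (W * Z * Wᴴ) := by
        rw [Matrix.mul_sub, Matrix.sub_mul]
        congr 1
        · calc W * (Z * c') * Wᴴ = W * Z * (1 * c') * Wᴴ := by
                rw [Matrix.one_mul]; simp only [Matrix.mul_assoc]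
            _ = _ := by rw [← hWW]; simp only [Matrix.mul_assoc]
        · calc W * (c' * Z) * Wᴴ = W * c' * (1 * Z) * Wᴴ := by
                rw [Matrix.one_mul]; simp only [Matrix.mul_assoc]
            _ = _ := by rw [← hWW]; simp only [Matrix.mul_assoc]
      rw [e6]
      simp only [Matrix.mul_sub, Matrix.sub_mul]
      abel
    have h6 := Pool.Agent.N957.NH.hs_comm_le (y := X - W * Z * Wᴴ) hV
    have h7 : hs (W * Z * Wᴴ * (V - W * c' * Wᴴ) - (V - W * c' * Wᴴ) * (W * Z * Wᴴ)) ≤
        4 * hs (V - W * c' * Wᴴ) := by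
      have h8 := Pool.Agent.W683.RC.hs_sub_le (W * Z * Wᴴ * (V - W * c' * Wᴴ))
        ((V - W * c' * Wᴴ) * (W * Z * Wᴴ))
      rw [hs_unit_mul hT, hs_mul_unit hT] at h8
      linarith
    have h8 : hs (W * (Z * c' - c' * Z) * Wᴴ) = hs (Z * c' - c' * Z) := by
      rw [hs_mul_unit (unit_conj hWW), hs_unit_mul hWW]
    have h9 := hs_add3_le ((X - W * Z * Wᴴ) * V - V * (X - W * Z * Wᴴ))
      (W * Z * Wᴴ * (V - W * c' * Wᴴ) - (V - W * c' * Wᴴ) * (W * Z * Wᴴ))
      (W * (Z * c' - c' * Z) * Wᴴ)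
    rw [← h5, h8] at h9
    have hεd : 0 ≤ ε * d := by positivity
    show hs (X * V - V * X) ≤ ε * d
    linarith

end

end Pool.Agent.N52.ST
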