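import Pool.Agent.N52.ST.Stm

/-!
# ST: monotonicity of the Casimir values (MLS) and the inverse conjugation on average (EQV)
-/

set_option autoImplicit false

namespace Pool.Agent.N52.ST

open Matrix Finset
open scoped ComplexOrder
open Pool.Agent.W661.RC Pool.Agent.W683.RC Pool.Agent.N303.KQ Pool.Agent.N52.NH

noncomputable section

variable {d : ℕ} {O : Out d}

open Classical in
theorem ms_eq (hK : S_KKZ) (g : Mt d) (N : O.K → O.K → Prop) :
    ms O g N = ∑ i', ∑ i, if N (O.c i') (O.c i) then kk O g i' i else 0 := by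
  have h1 : ∀ κ' κ, (if N κ' κ then hs (zc O κ' * g * zc O κ) else 0) =
      ∑ i' ∈ univ.filter (fun i => O.c i = κ'), ∑ i ∈ univ.filter (fun i => O.c i = κ),
        if N (O.c i') (O.c i) then kk O g i' i else 0 := by
    intro κ' κ
    by_cases h : N κ' κ
    · rw [if_pos h, (hK d O).2.2.2.2.2 g κ' κ]
      refine sum_congr rfl fun i' hi' => sum_congr rfl fun i hi => ?_
      rw [(mem_filter.1 hi').2, (mem_filter.1 hi).2, if_pos h]
    · rw [if_neg h]
      symm
      refine sum_eq_zero fun i' hi' => sum_eq_zero fun i hi => ?_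
      rw [(mem_filter.1 hi').2, (mem_filter.1 hi).2, if_neg h]
  rw [ms]
  simp only [h1]
  have h2 : ∀ f : O.I → ℝ, ∑ κ ∈ cl O, ∑ i ∈ univ.filter (fun i => O.c i = κ), f i = ∑ i, f i := by
    intro f
    exact sum_fiberwise_of_maps_to (fun i _ => mem_image_of_mem _ (mem_univ i)) f
  have h3 : ∀ κ', ∑ κ ∈ cl O, ∑ i' ∈ univ.filter (fun i => O.c i = κ'),
      ∑ i ∈ univ.filter (fun i => O.c i = κ), (if N (O.c i') (O.c i) then kk O g i' i else 0) =
      ∑ i' ∈ univ.filter (fun i => O.c i = κ'), ∑ i,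
        (if N (O.c i') (O.c i) then kk O g i' i else 0) := by
    intro κ'
    rw [sum_comm]
    exact sum_congr rfl fun i' _ => h2 _
  simp only [h3]
  exact h2 _

/-- the squares of the entries of the block `(i', i)` of the compression -/
def kap (O : Out d) (V : Mt d) (i' i : O.I) : ℝ :=
  ∑ y' : Yx O, ∑ y : Yx O, (if y'.1.1 = i' ∧ y.1.1 = i then ‖TT O V y' y‖ ^ 2 else 0)

theorem kap_nonneg (V : Mt d) (i' i : O.I) : 0 ≤ kap O V i' i :=
  sum_nonneg fun _ _ => sum_nonneg fun _ _ => by split_ifs <;> positivity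

theorem kap_right (V : Mt d) (i' i : O.I) : ∑ y' : Yx O, ∑ y : Yx O,
    (if y'.1.1 = i' ∧ y.1.1 = i then ‖TT O V y' y‖ ^ 2 * fw O y ^ 2 else 0) =
      ph O i * kap O V i' i := by
  rw [kap, mul_sum]
  refine sum_congr rfl fun y' _ => ?_
  rw [mul_sum]
  refine sum_congr rfl fun y _ => ?_
  by_cases h : y'.1.1 = i' ∧ y.1.1 = i
  · rw [if_pos h, if_pos h, fw_sq', h.2, mul_comm]
  · rw [if_neg h, if_neg h, mul_zero]

theorem kap_left (V : Mt d) (i' i : O.I) : ∑ y' : Yx O, ∑ y : Yx O,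
    (if y'.1.1 = i' ∧ y.1.1 = i then ‖TT O V y' y‖ ^ 2 * fw O y' ^ 2 else 0) =
      ph O i' * kap O V i' i := by
  rw [kap, mul_sum]
  refine sum_congr rfl fun y' _ => ?_
  rw [mul_sum]
  refine sum_congr rfl fun y _ => ?_
  by_cases h : y'.1.1 = i' ∧ y.1.1 = i
  · rw [if_pos h, if_pos h, fw_sq', h.1, mul_comm]
  · rw [if_neg h, if_neg h, mul_zero]

theorem ph_kap_le {V : Mt d} (hV : Vᴴ * V = 1) (i' i : O.I) :
    ph O i * kap O V i' i ≤ kk O V i' i := by
  refine le_trans (le_of_eq ?_) (claimA hV i' i)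
  rw [← kap_right]
  refine sum_congr rfl fun y' _ => sum_congr rfl fun y _ => ?_
  split_ifs <;> simp

theorem ph_kap_le' {V : Mt d} (hV : Vᴴ * V = 1) (i' i : O.I) :
    ph O i' * kap O V i' i ≤ kk O V i' i := by
  refine le_trans (le_of_eq ?_) (claimB hV i' i)
  rw [← kap_left]
  refine sum_congr rfl fun y' _ => sum_congr rfl fun y _ => ?_
  split_ifs <;> simp

theorem W2_TT (V : Mt d) : W2 O (TT O V) = ∑ i', ∑ i, ph O i * kap O V i' i := by
  rw [W2, split_rows (fun y' y => ‖TT O V y' y‖ ^ 2 * fw O y ^ 2)]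
  exact sum_congr rfl fun i' _ => sum_congr rfl fun i _ => kap_right V i' i

theorem W2_TT' (V : Mt d) : W2 O (TT O Vᴴ) = ∑ i', ∑ i, ph O i' * kap O V i' i := by
  have e : W2 O (TT O Vᴴ) = ∑ y', ∑ y, ‖TT O V y' y‖ ^ 2 * fw O y' ^ 2 := by
    rw [W2, sum_comm]
    refine sum_congr rfl fun y _ => sum_congr rfl fun y' _ => ?_
    have h1 : TT O Vᴴ y' y = star (TT O V y y') := by
      rw [TT, ← TV_conjTranspose, conjTranspose_apply]
    rw [h1, norm_star]
  rw [e, split_rows (fun y' y => ‖TT O V y' y‖ ^ 2 * fw O y' ^ 2)]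
  exact sum_congr rfl fun i' _ => sum_congr rfl fun i _ => kap_left V i' i

/-- blocks with multiplicity zero do not contribute -/
theorem kap_zero {V : Mt d} {i' i : O.I} (h : O.l (O.c i) = 0 ∨ O.l (O.c i') = 0) :
    kap O V i' i = 0 := by
  refine sum_eq_zero fun y' _ => sum_eq_zero fun y _ => ?_
  rw [if_neg]
  rintro ⟨rfl, rfl⟩
  rcases h with h | h
  · exact absurd y.2.2 (by rw [h]; exact lt_irrefl _)
  · exact absurd y'.2.2 (by rw [h]; exact lt_irrefl _)

theorem kk_nonneg (V : Mt d) (i' i : O.I) : 0 ≤ kk O V i' i := Pool.Agent.W683.RC.hs_nonneg _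

/-- the Casimir value is the inverse of the squared weight -/
theorem ph_cc (i : O.I) (h : O.l (O.c i) ≠ 0) : 0 < cc O (O.c i) ∧ ph O i = 1 / cc O (O.c i) := by
  have hl : (0 : ℝ) < (O.l (O.c i) : ℝ) := by exact_mod_cast Nat.pos_of_ne_zero h
  have hm : (0 : ℝ) < (mc O i : ℝ) := by exact_mod_cast mc_pos i
  have e : cc O (O.c i) = (mc O i : ℝ) / (O.l (O.c i) : ℝ) := rfl
  rw [e, ph, one_div_div]
  exact ⟨div_pos hm hl, rfl⟩

theorem mls (hK : S_KKZ) : S_MLS := by
  classical
  intro d O g ε q hg hq hN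
  have hq0 : 0 < q := by linarith
  have h1 := W2_TT_ge hg hN
  rw [W2_TT] at h1
  have h2 := sum_kk_le (O := O) hg
  rw [ms_eq hK]
  have key : ∀ i' i : O.I, ph O i * kap O g i' i ≤ kk O g i' i -
      (1 - 1 / q) * (if q * cc O (O.c i') ≤ cc O (O.c i) then kk O g i' i else 0) := by
    intro i' i
    have hk0 := kk_nonneg (O := O) g i' i
    have hq1 : 1 / q < 1 := by rw [div_lt_one hq0]; exact hq
    by_cases h : q * cc O (O.c i') ≤ cc O (O.c i)
    · rw [if_pos h]
      by_cases hz : O.l (O.c i) = 0 ∨ O.l (O.c i') = 0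
      · rw [kap_zero hz, mul_zero]
        have : kk O g i' i - (1 - 1 / q) * kk O g i' i = 1 / q * kk O g i' i := by ring
        rw [this]
        positivity
      · push Not at hz
        obtain ⟨c1, p1⟩ := ph_cc i hz.1
        obtain ⟨c2, p2⟩ := ph_cc i' hz.2
        have h3 : ph O i ≤ 1 / q * ph O i' := by
          rw [p1, p2, one_div_mul_one_div]
          exact one_div_le_one_div_of_le (by positivity) h
        have h4 := ph_kap_le' (O := O) hg i' i
        have h5 : ph O i * kap O g i' i ≤ 1 / q * (ph O i' * kap O g i' i) := by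
          rw [← mul_assoc]
          exact mul_le_mul_of_nonneg_right h3 (kap_nonneg _ _ _)
        have h6 : 1 / q * (ph O i' * kap O g i' i) ≤ 1 / q * kk O g i' i :=
          mul_le_mul_of_nonneg_left h4 (by positivity)
        linarith
    · rw [if_neg h, mul_zero, sub_zero]
      exact ph_kap_le hg i' i
  have h3 := sum_le_sum fun i' (_ : i' ∈ (univ : Finset O.I)) =>
    sum_le_sum fun i (_ : i ∈ (univ : Finset O.I)) => key i' i
  simp only [sum_sub_distrib, ← mul_sum] at h3
  linarith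

theorem eqv (hK : S_KKZ) : S_EQV := by
  classical
  intro d O g ε μ Γ hg hΓ hN hms
  have hΓ0 : 0 < Γ := by linarith
  have h1 := W2_TT_ge hg hN
  rw [W2_TT] at h1
  rw [ms_eq hK] at hms
  rw [W2_TT']
  have key : ∀ i' i : O.I, 1 / Γ * (ph O i * kap O g i' i -
      (if Γ * cc O (O.c i) < cc O (O.c i') then kk O g i' i else 0)) ≤
        ph O i' * kap O g i' i := by
    intro i' i
    have hp0 : 0 ≤ ph O i' := by rw [ph]; positivity
    have hk := kap_nonneg (O := O) g i' i
    by_cases h : Γ * cc O (O.c i) < cc O (O.c i')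
    · rw [if_pos h]
      have h2 := ph_kap_le (O := O) hg i' i
      have h3 : 1 / Γ * (ph O i * kap O g i' i - kk O g i' i) ≤ 0 :=
        mul_nonpos_of_nonneg_of_nonpos (by positivity) (by linarith)
      exact h3.trans (mul_nonneg hp0 hk)
    · rw [if_neg h, sub_zero]
      by_cases hz : O.l (O.c i) = 0 ∨ O.l (O.c i') = 0
      · rw [kap_zero hz, mul_zero, mul_zero, mul_zero]
      · push Not at hz h
        obtain ⟨c1, p1⟩ := ph_cc i hz.1
        obtain ⟨c2, p2⟩ := ph_cc i' hz.2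
        rw [← mul_assoc]
        refine mul_le_mul_of_nonneg_right ?_ hk
        rw [p1, p2, one_div_mul_one_div]
        exact one_div_le_one_div_of_le c2 h
  have h3 := sum_le_sum fun i' (_ : i' ∈ (univ : Finset O.I)) =>
    sum_le_sum fun i (_ : i ∈ (univ : Finset O.I)) => key i' i
  refine le_trans ?_ h3
  have h4 : ∑ i' : O.I, ∑ i : O.I, 1 / Γ * (ph O i * kap O g i' i -
      (if Γ * cc O (O.c i) < cc O (O.c i') then kk O g i' i else 0)) =
      1 / Γ * (∑ i' : O.I, ∑ i : O.I, ph O i * kap O g i' i - ∑ i' : O.I, ∑ i : O.I,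
      (if Γ * cc O (O.c i) < cc O (O.c i') then kk O g i' i else 0)) := by
    simp only [mul_sub, mul_sum, sum_sub_distrib]
  rw [h4]
  refine mul_le_mul_of_nonneg_left ?_ (by positivity)
  linarith

end

end Pool.Agent.N52.ST
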