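import Pool.Agent.N52.NH.Stm
import Pool.Agent.N957.NH.AVG

/-!
# Project ST (strong form of the theorem on Kazhdan pairs in hyperlinear groups): statements

`O` is the block algebra of the subgroup, `Q` the block algebra of the group, on the same space.
-/

set_option autoImplicit false

namespace Pool.Agent.N52.ST

open Matrix Finset
open scoped ComplexOrder
open Pool.Agent.W661.RC Pool.Agent.W683.RC Pool.Agent.N303.KQ Pool.Agent.N52.NH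
open Pool.Agent.H21R2 (IsHyperlinear)

noncomputable section

/-- the value of the Casimir operator on the class `κ`: size divided by multiplicity -/
def cc {d : ℕ} (O : Out d) (κ : O.K) : ℝ :=
  ((univ.filter fun j : O.I => O.c j = κ).card : ℝ) / (O.l κ : ℝ)

/-- the central projection of the class `κ` -/
def zc {d : ℕ} (O : Out d) (κ : O.K) : Mt d := ZT O (fun i => O.c i = κ)

/-- the central projection of the classes with Casimir value `> t` -/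
def ZG {d : ℕ} (O : Out d) (t : ℝ) : Mt d := ZT O (fun i => t < cc O (O.c i))

/-- the central projection of the classes with Casimir value `≤ t` -/
def ZL {d : ℕ} (O : Out d) (t : ℝ) : Mt d := ZT O (fun i => cc O (O.c i) ≤ t)

/-- the classes -/
def cl {d : ℕ} (O : Out d) : Finset O.K := univ.image O.c

open Classical in
/-- the mass of the pairs of classes in the relation `N` -/
def ms {d : ℕ} (O : Out d) (g : Mt d) (N : O.K → O.K → Prop) : ℝ :=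
  ∑ κ' ∈ cl O, ∑ κ ∈ cl O, if N κ' κ then hs (zc O κ' * g * zc O κ) else 0

open Classical in
/-- the mass cut by `a` -/
def mb {d : ℕ} (O : Out d) (g a : Mt d) (N : O.K → O.K → Prop) : ℝ :=
  ∑ κ' ∈ cl O, ∑ κ ∈ cl O, if N κ' κ then hs (zc O κ' * g * zc O κ * a) else 0

/-- KKZ: basic facts about classes. -/
def S_KKZ : Prop :=
  ∀ (d : ℕ) (O : Out d),
    (∀ κ, IsPr (zc O κ) ∧ zc O κ ∈ O.alg ∧ ∀ a ∈ O.alg, zc O κ * a = a * zc O κ) ∧
    (∀ κ κ', κ ≠ κ' → zc O κ * zc O κ' = 0) ∧ (∑ κ ∈ cl O, zc O κ = pO O) ∧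
    (∀ T : O.K → Prop, ZT O (fun i => T (O.c i)) =
      ∑ κ ∈ @Finset.filter _ T (Classical.decPred T) (cl O), zc O κ) ∧
    (∀ t, ZG O t + ZL O t = pO O) ∧
    ∀ (g : Mt d) (κ' κ : O.K), hs (zc O κ' * g * zc O κ) =
      ∑ i' ∈ univ.filter (fun i => O.c i = κ'), ∑ i ∈ univ.filter (fun i => O.c i = κ),
        kk O g i' i

/-- MLS: monotonicity of the Casimir values. -/
def S_MLS : Prop :=
  ∀ (d : ℕ) (O : Out d) (g : Mt d) (ε q : ℝ), gᴴ * g = 1 → 1 < q → NearInv O g ε →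
    (1 - 1 / q) * ms O g (fun κ' κ => q * cc O κ' ≤ cc O κ) ≤ ε * d

/-- XX: masses and almost central partitions. -/
def S_XX : Prop :=
  ∀ (d : ℕ) (O Q : Out d) (g : Mt d) (a : Q.I → Mt d) (e : ℝ) (N0 : O.K → O.K → Prop)
    (N : Q.I → O.K → O.K → Prop), gᴴ * g = 1 → (∀ j, a j ∈ O.alg) →
    ∑ j, hs (pr Q j - a j) ≤ e →
    ((∀ j κ' κ, N j κ' κ → N0 κ' κ) → ∑ j, mb O g (a j) (N j) ≤ 2 * ms O g N0 + 2 * e) ∧
    ms O g N0 ≤ 2 * ∑ j, mb O g (a j) N0 + 2 * e + ((d : ℝ) - D0 Q)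

/-- MON: the level projections of the pieces. -/
def S_MON : Prop :=
  ∀ (d : ℕ) (O Q : Out d) (u : Mt d) (a : Q.I → Mt d) (ε e q : ℝ) (t : Q.I → ℝ), uᴴ * u = 1 →
    1 < q → 0 ≤ ε → (∀ j, 0 < t j) → NearInv O u ε → (d : ℝ) - D0 O ≤ ε * d →
    (∀ j, a j ∈ O.alg) → ∑ j, hs (pr Q j - a j) ≤ e →
    ∑ j, hs (u * pr Q j - pr Q j * u) ≤ e →
    ∑ j, hs ((1 - ZG O (t j / q)) * u * ZG O (t j) * pr Q j) ≤
      100 * (q / (q - 1)) * (ε * d) + 100 * e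

/-- INV: a block diagonal element made from projections which are moved almost monotonically. -/
def S_INV : Prop :=
  ∀ (d : ℕ) (J : Type) [Fintype J] (p Z Z' : J → Mt d) (u : Mt d) (e : ℝ), (∀ j, IsPr (p j)) →
    (∀ i j, i ≠ j → p i * p j = 0) → (∀ j, IsPr (Z j)) → (∀ j, IsPr (Z' j)) →
    (∀ j, Z' j * Z j = Z j) → uᴴ * u = 1 → 0 ≤ e →
    ∑ j, hs (u * p j - p j * u) ≤ e → ∑ j, hs (Z j * p j - p j * Z j) ≤ e →
    ∑ j, hs (Z' j * p j - p j * Z' j) ≤ e → ∑ j, hs ((1 - Z' j) * u * Z j * p j) ≤ e →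
    hs (u * (∑ j, p j * Z j * p j) - (∑ j, p j * Z j * p j) * u) ≤
      100 * (∑ j, tr (p j * (Z' j - Z j)) + e + √(e * d))

/-- SCA: almost invariant block diagonal projections are almost trivial on the pieces. -/
def S_SCA : Prop :=
  ∀ (d k : ℕ) (u : Fin k → Mt d) (Q : Out d) (K1 ε : ℝ) (Z : Q.I → Mt d), 0 ≤ K1 →
    BlkA u K1 ε Q → (∀ j, IsPr (Z j)) →
    ∑ j, min (tr (pr Q j * Z j)) (tr (pr Q j) - tr (pr Q j * Z j)) ≤
      2 * (K1 * en u (∑ j, pr Q j * Z j * pr Q j) + ε * d +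
        ∑ j, hs (Z j * pr Q j - pr Q j * Z j))

/-- the hypotheses on the pair of block algebras -/
structure Pair {k d : ℕ} (u : Fin k → Mt d) (O Q : Out d) (K1 ε : ℝ) : Prop where
  un : ∀ s, (u s)ᴴ * u s = 1
  near : ∀ s, NearInv O (u s) ε
  blk : BlkA u K1 ε Q
  sub : ∀ c ∈ Q.alg, Le (cᴴ * c) 1 → ∃ a ∈ O.alg, hs (c - a) ≤ ε * d
  size : (d : ℝ) - D0 O ≤ ε * d

/-- CON: concentration of the Casimir values on every piece. -/
def S_CON : Prop :=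
  ∀ (k : ℕ) (K1 ρ γ : ℝ), 0 ≤ K1 → 0 < ρ → 1 < γ → ∃ ε : ℝ, 0 < ε ∧
    ∀ (d : ℕ) (O Q : Out d) (u : Fin k → Mt d), 0 < d → Pair u O Q K1 ε →
      ∃ m : Q.I → ℝ, (∀ j, 0 < m j) ∧
        ∑ j, tr (pr Q j * ZG O (γ * m j)) + ∑ j, tr (pr Q j * ZL O (m j / γ)) ≤ ρ * d

/-- CMP: the Casimir values are almost preserved. -/
def S_CMP : Prop :=
  ∀ (d : ℕ) (O Q : Out d) (u : Mt d) (a : Q.I → Mt d) (ρ ε e γ : ℝ) (m : Q.I → ℝ), uᴴ * u = 1 →
    1 < γ → (∀ j, 0 < m j) → (d : ℝ) - D0 Q ≤ ε * d →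
    ∑ j, tr (pr Q j * ZG O (γ * m j)) + ∑ j, tr (pr Q j * ZL O (m j / γ)) ≤ ρ * d →
    (∀ j, a j ∈ O.alg) → ∑ j, hs (pr Q j - a j) ≤ e →
    ∑ j, hs (u * pr Q j - pr Q j * u) ≤ e →
    ms O u (fun κ' κ => γ ^ 2 * cc O κ < cc O κ') ≤ 100 * (ρ * d) + 100 * e + ε * d

/-- EQV: the inverse conjugation on average. -/
def S_EQV : Prop :=
  ∀ (d : ℕ) (O : Out d) (g : Mt d) (ε μ Γ : ℝ), gᴴ * g = 1 → 1 < Γ → NearInv O g ε →
    ms O g (fun κ' κ => Γ * cc O κ < cc O κ') ≤ μ * d →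
    1 / Γ * (D0 O - (ε + μ) * d) ≤ W2 O (TT O gᴴ)

/-- CEX: the projection onto the block algebra maps contractions to contractions. -/
def S_CEX : Prop :=
  ∀ (d : ℕ) (O : Out d) (x : Mt d), Le (xᴴ * x) 1 →
    Le ((JJ (Jb O) (kp (Jb O) x))ᴴ * JJ (Jb O) (kp (Jb O) x)) 1

/-- near inclusion with contractions -/
def NearC {d : ℕ} (O : Out d) (V : Mt d) (ε : ℝ) : Prop :=
  ∀ a ∈ O.alg, Le (aᴴ * a) 1 → ∃ b ∈ O.alg, Le (bᴴ * b) 1 ∧ hs (V * a * Vᴴ - b) ≤ ε * d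

/-- STR: near inclusion on average gives near inclusion. -/
def S_STR : Prop :=
  ∀ (d : ℕ) (O : Out d) (V : Mt d) (η : ℝ), Vᴴ * V = 1 → D0 O - η * d ≤ W2 O (TT O V) →
    NearC O V (16 * η)

/-- CORES: the finite-dimensional theorem. -/
def S_CORES : Prop :=
  ∀ (k : ℕ) (K1 ε0 : ℝ), 0 ≤ K1 → 0 < ε0 → ∃ ε : ℝ, 0 < ε ∧
    ∀ (d : ℕ) (O Q : Out d) (u : Fin k → Mt d), 0 < d → Pair u O Q K1 ε →
      ∀ s, NearC O (u s)ᴴ ε0

/-- FM: the finite form for groups. `γ` is a surjection from a free group, `W` a word for an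
element `g k g⁻¹` with `k ∈ K`, where `g` is a product of elements `g'` with `K ≤ g' K g'⁻¹`. -/
def S_FM : Prop :=
  ∀ (G : Type) [Group G] (K : Subgroup G), HasT G → HasT K →
    Subgroup.closure {g : G | ∀ k ∈ K, g⁻¹ * k * g ∈ K} = ⊤ →
    ∀ (n : ℕ) (γ : FreeGroup (Fin n) →* G), Function.Surjective γ →
    ∀ (g : G), (∀ k ∈ K, g⁻¹ * k * g ∈ K) → ∀ (x : FreeGroup (Fin n)), g⁻¹ * γ x * g ∈ K →
    ∀ ε : ℝ, 0 < ε → ∃ (δ : ℝ) (R S : Finset (FreeGroup (Fin n))), 0 < δ ∧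
      (∀ w ∈ R, γ w = 1) ∧ (∀ w ∈ S, γ w ∈ K) ∧
      ∀ (d : ℕ) (U : Fin n → unitaryGroup (Fin d) ℂ) (V : Mt d), 0 < d →
        (∀ w ∈ R, hs ((FreeGroup.lift U w : Mt d) - 1) ≤ δ * d) → Le (Vᴴ * V) 1 →
        (∀ w ∈ S, hs ((FreeGroup.lift U w : Mt d) * V - V * (FreeGroup.lift U w : Mt d)) ≤ δ * d) →
        hs ((FreeGroup.lift U x : Mt d) * V - V * (FreeGroup.lift U x : Mt d)) ≤ ε * d

/-- STRONG: centralizers in hyperlinear groups. -/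
def S_STRONG : Prop :=
  ∀ (P : Type) [Group P] (G K : Subgroup P), IsHyperlinear P → HasT G → HasT K → K ≤ G →
    Subgroup.closure {g : P | g ∈ G ∧ ∀ k ∈ K, g⁻¹ * k * g ∈ K} = G →
    ∀ g ∈ G, (∀ k ∈ K, g⁻¹ * k * g ∈ K) → ∀ l : P, (∀ k ∈ K, l * k = k * l) →
      ∀ k ∈ K, l * (g * k * g⁻¹) = g * k * g⁻¹ * l

end

end Pool.Agent.N52.ST
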