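import Pool.Agent.N52.ST.FM
import Pool.Agent.N897.NH52.HYW

/-!
# ST: centralizers in hyperlinear groups
-/

set_option autoImplicit false

namespace Pool.Agent.N52.ST

open Matrix Finset
open scoped ComplexOrder
open Pool.Agent.W661.RC Pool.Agent.W683.RC Pool.Agent.N303.KQ Pool.Agent.N52.NH
open Pool.Agent.N52.NH.MAINH (hs_word)
open Pool.Agent.H21R2 (IsHyperlinear)

noncomputable section

/-- property (T) passes to images -/
theorem hasT_of_surjective {G H : Type} [Group G] [Group H] (f : G →* H)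
    (hf : Function.Surjective f) (hT : HasT G) : HasT H := by
  classical
  intro E _ _ _ π h
  obtain ⟨v, hv0, hv⟩ := hT E (π.comp f) (by
    intro K ε hε
    obtain ⟨v, hv1, hv2⟩ := h (K.image f) ε hε
    exact ⟨v, hv1, fun g hg => hv2 (f g) (mem_image_of_mem _ hg)⟩)
  refine ⟨v, hv0, fun g => ?_⟩
  obtain ⟨g', rfl⟩ := hf g
  exact hv g'

theorem strong (hF : S_FM) (hY : S_HYW) : S_STRONG := by
  classical
  intro P _ G K hP hTG hTK hKG hcl g hg hgK l hl k hk
  by_contra hne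
  obtain ⟨n, γ, hγ⟩ := exists_free hTG
  -- the pair inside `G`
  set K' : Subgroup G := K.subgroupOf G with hK'
  have hTK' : HasT K' :=
    hasT_of_surjective (Subgroup.subgroupOfEquivOfLe hKG).symm.toMonoidHom
      (Subgroup.subgroupOfEquivOfLe hKG).symm.surjective hTK
  have hmem : ∀ y : G, y ∈ K' ↔ (y : P) ∈ K := fun y => Subgroup.mem_subgroupOf
  have hcl' : Subgroup.closure {y : G | ∀ k ∈ K', y⁻¹ * k * y ∈ K'} = ⊤ := by
    rw [eq_top_iff]
    intro y _
    have h1 : (y : P) ∈ Subgroup.closure {g : P | g ∈ G ∧ ∀ k ∈ K, g⁻¹ * k * g ∈ K} := by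
      rw [hcl]; exact y.2
    have h2 : ∀ x : P, x ∈ Subgroup.closure {g : P | g ∈ G ∧ ∀ k ∈ K, g⁻¹ * k * g ∈ K} →
        ∃ hx : x ∈ G, (⟨x, hx⟩ : G) ∈ Subgroup.closure {y : G | ∀ k ∈ K', y⁻¹ * k * y ∈ K'} := by
      intro x hx
      induction hx using Subgroup.closure_induction with
      | mem x hx =>
        refine ⟨hx.1, Subgroup.subset_closure ?_⟩
        intro k hk
        rw [hmem] at hk ⊢
        exact hx.2 _ hk
      | one => exact ⟨one_mem _, one_mem _⟩
      | mul a b _ _ ha hb =>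
        obtain ⟨ha1, ha2⟩ := ha
        obtain ⟨hb1, hb2⟩ := hb
        exact ⟨mul_mem ha1 hb1, mul_mem ha2 hb2⟩
      | inv a _ ha =>
        obtain ⟨ha1, ha2⟩ := ha
        exact ⟨inv_mem ha1, inv_mem ha2⟩
    exact (h2 _ h1).2
  obtain ⟨x, hx⟩ := hγ (⟨g, hg⟩ * ⟨k, hKG hk⟩ * (⟨g, hg⟩ : G)⁻¹)
  have hx1 : (⟨g, hg⟩ : G)⁻¹ * γ x * ⟨g, hg⟩ ∈ K' := by
    rw [hx]
    have h1 : (⟨g, hg⟩ : G)⁻¹ * (⟨g, hg⟩ * ⟨k, hKG hk⟩ * (⟨g, hg⟩ : G)⁻¹) * ⟨g, hg⟩ =
        ⟨k, hKG hk⟩ := by group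
    rw [h1, hmem]
    exact hk
  obtain ⟨δ, R, S, hδ, hR, hS, hfm⟩ := hF G K' hTG hTK' hcl' n γ hγ ⟨g, hg⟩ (by
    intro k hk
    rw [hmem] at hk ⊢
    exact hgK _ hk) x hx1 (1 / 4) (by norm_num)
  -- the approximation of the group generated by `G` and `l`
  set β : FreeGroup (Fin (n + 1)) →* P :=
    FreeGroup.lift (Fin.lastCases l (fun i => ((γ (FreeGroup.of i) : G) : P))) with hβ
  set ι : FreeGroup (Fin n) →* FreeGroup (Fin (n + 1)) :=
    FreeGroup.lift (fun i => FreeGroup.of (Fin.castSucc i)) with hι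
  set L : FreeGroup (Fin (n + 1)) := FreeGroup.of (Fin.last n) with hL
  have hβL : β L = l := by rw [hβ, hL, FreeGroup.lift_apply_of, Fin.lastCases_last]
  have hβι : ∀ w, β (ι w) = ((γ w : G) : P) := by
    intro w
    have h1 : β.comp ι = G.subtype.comp γ := by
      apply FreeGroup.ext_hom
      intro i
      simp [hβ, hι]
    exact congrFun (congrArg DFunLike.coe h1) w
  set E : Finset (FreeGroup (Fin (n + 1))) :=
    R.image ι ∪ S.image (fun w => ι w * L * (L * ι w)⁻¹) with hE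
  obtain ⟨d, U, hd, hU1, hU2⟩ := hY P hP (n + 1) β E (ι x * L * (L * ι x)⁻¹) (min δ (1 / 4))
    (by
      intro w hw
      rw [hE, mem_union] at hw
      rcases hw with hw | hw
      · obtain ⟨w', hw', rfl⟩ := mem_image.1 hw
        rw [hβι, hR w' hw']; rfl
      · obtain ⟨w', hw', rfl⟩ := mem_image.1 hw
        rw [map_mul, map_mul, map_inv, map_mul, hβι, hβL]
        have h1 : ((γ w' : G) : P) ∈ K := (hmem _).1 (hS w' hw')
        rw [hl _ h1]
        group)
    (by
      intro h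
      rw [map_mul, map_mul, map_inv, map_mul, hβι, hβL, hx] at h
      apply hne
      have h1 := mul_inv_eq_one.1 h
      exact h1.symm)
    (lt_min hδ (by norm_num))
  have hd0 : (0 : ℝ) < d := by exact_mod_cast hd
  set U' : Fin n → unitaryGroup (Fin d) ℂ := fun i => U (Fin.castSucc i) with hU'
  have hUι : ∀ w, FreeGroup.lift U (ι w) = FreeGroup.lift U' w := by
    intro w
    have h1 : (FreeGroup.lift U).comp ι = FreeGroup.lift U' := by
      apply FreeGroup.ext_hom
      intro i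
      simp [hι, hU']
    exact congrFun (congrArg DFunLike.coe h1) w
  have hUL : FreeGroup.lift U L = U (Fin.last n) := by rw [hL, FreeGroup.lift_apply_of]
  set V : Mt d := (U (Fin.last n)).1 with hV
  have hcomm : ∀ w, hs ((FreeGroup.lift U (ι w * L * (L * ι w)⁻¹) : Mt d) - 1) =
      hs ((FreeGroup.lift U' w : Mt d) * V - V * (FreeGroup.lift U' w : Mt d)) := by
    intro w
    rw [hs_word, map_mul, map_mul, hUι, hUL]
    rfl
  have h1 := hfm d U' V hd (by
    intro w hw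
    rw [← hUι]
    exact (hU1 _ (mem_union_left _ (mem_image_of_mem _ hw))).trans
      (mul_le_mul_of_nonneg_right (min_le_left _ _) hd0.le)) (by
    rw [hV, un_conj]; show (1 - 1 : Mt d).PosSemidef; rw [sub_self]; exact Matrix.PosSemidef.zero)
    (by
    intro w hw
    rw [← hcomm]
    exact (hU1 _ (mem_union_right _ (mem_image.2 ⟨w, hw, rfl⟩))).trans
      (mul_le_mul_of_nonneg_right (min_le_left _ _) hd0.le))
  rw [← hcomm] at h1
  have h2 : (1 - min δ (1 / 4)) * d ≤ 1 / 4 * (d : ℝ) := hU2.trans h1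
  have h3 : min δ (1 / 4) ≤ 1 / 4 := min_le_right _ _
  nlinarith

end

end Pool.Agent.N52.ST
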